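import Pool.Agent.X265.Gri.Depth
import Pool.Agent.X265.Gri.Upper

/-!
# Lower bound for depth versus word length in the Grigorchuk group

Question 1 has a positive answer: `d(g) ≥ 0.502 log₂|g| + C` for all `g ≠ 1` in the Grigorchuk group,
and `0.502 > 1/2`. On the other hand every `μ` with `d(g) ≥ μ log₂|g| + C` for all `g ≠ 1` satisfies
`μ ≤ 1 / log₂ x = 0.767...` where `x³ = x² + 2x + 4`, so `0.502 ≤ μ* ≤ 0.768`.

Proof. Let `L(n)` be the largest length of an element of depth at most `n`. The plain lifts of the two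
sections give `L(n+1) ≤ 4 L(n) + C`. The lift of a word to the first coordinate has for each letter `a`
two possibilities (`b = (a, c)` and `c = (a, d)`); with `c` the second coordinate walks in the finite
group `⟨a, d⟩`, and when this walk is at `1` or `d`, the letter `b` can be used to pass one star of a
prescribed word in the second coordinate at no cost. Words which are themselves lifts of words without
`(ac)^8` contain `a c a y a c a` with `y = c` or `y = d` in each window of bounded length, and on such a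
subword the walk necessarily visits `1` or `d`. This gives `10 L(n+2) ≤ 158 L(n) + C`.

The upper bound comes from the elements of the starting result `MP_b99418_al.ExactLength`: `g_0 = (ac)²`,
`g_(m+1) = (a g_m a, g_m)` has depth at most `m + 3` and exactly known length on level `m + 3`.
-/

set_option autoImplicit false

namespace Pool.Agent.Results.MP_7efe7b_al.DepthVersusLength

open Pool.Agent.X265.Gri

/-- the Grigorchuk group, as a group of permutations of the set of finite words over `{0, 1}`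
(`false = 0`, `true = 1`) -/
def grigorchuk : Subgroup (Equiv.Perm (List Bool)) := Subgroup.closure (Set.range gen)

/-- the word length with respect to `a, b, c, d` -/
noncomputable def wordLength (g : Equiv.Perm (List Bool)) : ℕ :=
  sInf {n | ∃ l : List S, l.length = n ∧ (l.map gen).prod = g}

/-- the least `n` such that all sections of `g` at the words of length `n` are in `{1, a, b, c, d}` -/
noncomputable def depth (g : Equiv.Perm (List Bool)) : ℕ :=
  sInf {n | ∀ u : List Bool, u.length = n → ∃ q : Option S, sec g u = act q}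

theorem mem_iff (g : Equiv.Perm (List Bool)) : g ∈ grigorchuk ↔ ∃ l : List S, ev l = g := by
  constructor
  · intro h
    induction h using Subgroup.closure_induction with
    | mem x hx =>
      obtain ⟨s, rfl⟩ := hx
      exact ⟨[s], by simp⟩
    | one => exact ⟨[], rfl⟩
    | mul x y _ _ hx hy =>
      obtain ⟨l, rfl⟩ := hx
      obtain ⟨m, rfl⟩ := hy
      exact ⟨l ++ m, by simp⟩
    | inv x _ hx =>
      obtain ⟨l, rfl⟩ := hx
      exact ⟨l.reverse, ev_reverse l⟩
  · rintro ⟨l, rfl⟩
    exact Subgroup.list_prod_mem _ (by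
      intro x hx
      obtain ⟨s, -, rfl⟩ := List.mem_map.1 hx
      exact Subgroup.subset_closure ⟨s, rfl⟩)

theorem log_bound : Real.logb 2 (158 / 10) ≤ 1000 / 251 := by
  have h0 : Real.logb 2 (158 / 10) ≤ 247 / 62 := by
    rw [Real.logb_le_iff_le_rpow (by norm_num) (by norm_num)]
    have h1 : ((158 / 10 : ℝ)) ^ 62 ≤ (2 : ℝ) ^ 247 := by norm_num
    have h2 : ((2 : ℝ) ^ (247 / 62 : ℝ)) ^ 62 = (2 : ℝ) ^ 247 := by
      rw [← Real.rpow_natCast, ← Real.rpow_mul (by norm_num), ← Real.rpow_natCast]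
      norm_num
    by_contra h
    push Not at h
    have h3 := pow_lt_pow_left₀ h (by positivity) (show (62 : ℕ) ≠ 0 by norm_num)
    rw [h2] at h3
    exact absurd h1 (not_le.2 h3)
  exact h0.trans (by norm_num)

theorem upper (μ C : ℝ)
    (h : ∀ g ∈ grigorchuk, g ≠ 1 → μ * Real.logb 2 (wordLength g) + C ≤ depth g)
    (x : ℝ) (hx : 0 < x) (h3 : x ^ 3 = x ^ 2 + 2 * x + 4) : μ * Real.logb 2 x ≤ 1 := by
  have hx2 : 2 < x := by nlinarith [sq_nonneg (x - 2), sq_nonneg x]
  rcases le_or_gt μ 0 with hμ | hμ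
  · have : 0 ≤ Real.logb 2 x := Real.logb_nonneg (by norm_num) (by linarith)
    nlinarith
  by_contra hcon
  push Not at hcon
  -- for every `m`: `μ (m log x - 2 log (1 + x)) + C ≤ m + 2`
  have key : ∀ m : ℕ, μ * (m * Real.logb 2 x - Real.logb 2 ((1 + x) ^ 2)) + C ≤ m + 2 := by
    intro m
    have hL := L_growth x hx h3 m
    have hxm : 0 < x ^ m := by positivity
    have hLpos : (0 : ℝ) < EL.L (m + 2) := by
      have : 0 < (1 + x) ^ 2 * (EL.L (m + 2) : ℝ) := lt_of_lt_of_le hxm hL
      exact (mul_pos_iff_of_pos_left (by positivity)).1 this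
    have hmem : G0 m ∈ grigorchuk := (mem_iff _).2 ⟨_, rfl⟩
    have hw : EL.L (m + 2) ≤ wordLength (G0 m) := by
      obtain ⟨l, h7, h8⟩ := Nat.sInf_mem (show {n | ∃ l : List S, l.length = n ∧
        (l.map gen).prod = G0 m}.Nonempty from ⟨_, _, rfl, rfl⟩)
      unfold wordLength
      rw [← h7]
      exact G0_length m l h8
    have hne : G0 m ≠ 1 := by
      intro h1
      have h2 : wordLength (G0 m) ≤ 0 := Nat.sInf_le ⟨[], rfl, by rw [h1]; rfl⟩
      have h4 : (0 : ℝ) < (wordLength (G0 m) : ℝ) := lt_of_lt_of_le hLpos (by exact_mod_cast hw)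
      have h5 : 0 < wordLength (G0 m) := by exact_mod_cast h4
      omega
    have hd : depth (G0 m) ≤ m + 2 := Nat.sInf_le (DL_G0 m)
    have h6 := h _ hmem hne
    have h7 : (m : ℝ) * Real.logb 2 x - Real.logb 2 ((1 + x) ^ 2) ≤
        Real.logb 2 (wordLength (G0 m)) := by
      have h8 : x ^ m ≤ (1 + x) ^ 2 * (wordLength (G0 m) : ℝ) := by
        refine hL.trans ?_
        have : (EL.L (m + 2) : ℝ) ≤ wordLength (G0 m) := by exact_mod_cast hw
        gcongr
      have h9 : (0 : ℝ) < wordLength (G0 m) := lt_of_lt_of_le hLpos (by exact_mod_cast hw)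
      have h10 := Real.logb_le_logb_of_le (b := 2) (by norm_num) hxm h8
      rw [Real.logb_pow, Real.logb_mul (by positivity) h9.ne'] at h10
      linarith
    have h11 : (depth (G0 m) : ℝ) ≤ m + 2 := by exact_mod_cast hd
    have h12 := mul_le_mul_of_nonneg_left h7 hμ.le
    linarith
  obtain ⟨m, hm⟩ := exists_nat_gt ((2 - C + μ * Real.logb 2 ((1 + x) ^ 2)) /
    (μ * Real.logb 2 x - 1))
  have hpos : 0 < μ * Real.logb 2 x - 1 := by linarith
  rw [div_lt_iff₀ hpos] at hm
  have := key m
  nlinarith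

theorem upper_num (μ C : ℝ)
    (h : ∀ g ∈ grigorchuk, g ≠ 1 → μ * Real.logb 2 (wordLength g) + C ≤ depth g) :
    μ < 0.7685 := by
  -- the positive root
  obtain ⟨x, hx1, hx2⟩ : ∃ x ∈ Set.Icc (2.465 : ℝ) 3, x ^ 3 - x ^ 2 - 2 * x - 4 = 0 := by
    have hc : ContinuousOn (fun x : ℝ => x ^ 3 - x ^ 2 - 2 * x - 4) (Set.Icc 2.465 3) := by
      fun_prop
    have := intermediate_value_Icc (by norm_num : (2.465 : ℝ) ≤ 3) hc
    obtain ⟨x, h1, h2⟩ := this (show (0 : ℝ) ∈ _ from ⟨by norm_num, by norm_num⟩)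
    exact ⟨x, h1, h2⟩
  have hx0 : 0 < x := lt_of_lt_of_le (by norm_num) hx1.1
  have h1 := upper μ C h x hx0 (by linarith)
  -- `log₂ 2.465 > 177 / 136`
  have h2 : (177 / 136 : ℝ) < Real.logb 2 x := by
    rw [Real.lt_logb_iff_rpow_lt (by norm_num) hx0]
    have h5 : ((2 : ℝ) ^ (177 / 136 : ℝ)) ^ 136 = (2 : ℝ) ^ 177 := by
      rw [← Real.rpow_natCast, ← Real.rpow_mul (by norm_num), ← Real.rpow_natCast]
      norm_num
    have h6 : (2 : ℝ) ^ 177 < (2.465 : ℝ) ^ 136 := by norm_num
    have h7 : (2.465 : ℝ) ^ 136 ≤ x ^ 136 := pow_le_pow_left₀ (by norm_num) hx1.1 _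
    refine lt_of_pow_lt_pow_left₀ 136 hx0.le ?_
    rw [h5]
    linarith
  by_contra hcon
  push Not at hcon
  have h8 : (0.7685 : ℝ) * (177 / 136) ≤ μ * Real.logb 2 x := by
    apply mul_le_mul hcon h2.le (by norm_num) (by linarith [show (0 : ℝ) < 0.7685 by norm_num])
  norm_num at h8
  linarith

/-- The word length and the depth are attained minima, there is a constant `C` with
`d(g) ≥ 0.502 log₂ |g| + C` for all nontrivial `g` in the Grigorchuk group, and if
`d(g) ≥ μ log₂ |g| + C` for all nontrivial `g` with real `μ` and `C`, then `μ log₂ x ≤ 1` for the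
positive solution `x` of `x³ = x² + 2x + 4`, so that `μ < 0.7685`. -/
theorem result :
    (∀ g ∈ grigorchuk,
      IsLeast {n | ∃ l : List S, l.length = n ∧ (l.map gen).prod = g} (wordLength g) ∧
      IsLeast {n | ∀ u : List Bool, u.length = n → ∃ q : Option S, sec g u = act q} (depth g)) ∧
    (∃ C : ℝ, ∀ g ∈ grigorchuk, g ≠ 1 →
      0.502 * Real.logb 2 (wordLength g) + C ≤ depth g) ∧
    (∀ μ C : ℝ, (∀ g ∈ grigorchuk, g ≠ 1 → μ * Real.logb 2 (wordLength g) + C ≤ depth g) →
      (∀ x : ℝ, 0 < x → x ^ 3 = x ^ 2 + 2 * x + 4 → μ * Real.logb 2 x ≤ 1) ∧ μ < 0.7685) := by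
  have hne : ∀ g ∈ grigorchuk,
      {n | ∃ l : List S, l.length = n ∧ (l.map gen).prod = g}.Nonempty ∧
      {n | ∀ u : List Bool, u.length = n → ∃ q : Option S, sec g u = act q}.Nonempty := by
    intro g hg
    obtain ⟨l, rfl⟩ := (mem_iff g).1 hg
    obtain ⟨n, hn⟩ := exists_DL l
    exact ⟨⟨_, l, rfl, rfl⟩, ⟨n, hn⟩⟩
  refine ⟨fun g hg => ⟨⟨Nat.sInf_mem (hne g hg).1, fun n hn => Nat.sInf_le hn⟩,
    ⟨Nat.sInf_mem (hne g hg).2, fun n hn => Nat.sInf_le hn⟩⟩, ?_,
    fun μ C h => ⟨fun x hx h3 => upper μ C h x hx h3, upper_num μ C h⟩⟩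
  obtain ⟨M, hM, hg⟩ := growth
  refine ⟨-(0.502 * Real.logb 2 (max M 1)), ?_⟩
  intro g hgG hg1
  obtain ⟨l, hl⟩ := (mem_iff g).1 hgG
  have hdep : DL (depth g) g := Nat.sInf_mem (hne g hgG).2
  obtain ⟨L, h1, h2⟩ := hg (depth g)
  obtain ⟨m, h3, h4⟩ := h1 l (by rw [hl]; exact hdep)
  have h5 : wordLength g ≤ L := by
    have hm : m.length ∈ {n | ∃ l : List S, l.length = n ∧ (l.map gen).prod = g} :=
      ⟨m, rfl, by rw [← hl]; exact h4⟩
    exact (Nat.sInf_le hm).trans h3
  have h6 : 1 ≤ wordLength g := by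
    obtain ⟨m', h7, h8⟩ := Nat.sInf_mem (hne g hgG).1
    by_contra h
    have h9 : wordLength g = 0 := by omega
    have h10 : m'.length = 0 := h7.trans h9
    rw [List.length_eq_zero_iff.1 h10] at h8
    exact hg1 h8.symm
  have h7 : (wordLength g : ℝ) ≤ max M 1 * (Real.sqrt (158 / 10)) ^ depth g := by
    calc (wordLength g : ℝ) ≤ L := by exact_mod_cast h5
      _ ≤ M * (Real.sqrt (158 / 10)) ^ depth g := h2
      _ ≤ _ := by gcongr; exact le_max_left _ _
  have hpos : (0 : ℝ) < wordLength g := by exact_mod_cast h6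
  have hmax : (0 : ℝ) < max M 1 := lt_of_lt_of_le one_pos (le_max_right _ _)
  have hsq : (0 : ℝ) < Real.sqrt (158 / 10) := Real.sqrt_pos.2 (by norm_num)
  have h8 : Real.logb 2 (wordLength g) ≤
      Real.logb 2 (max M 1) + depth g * (Real.logb 2 (158 / 10) / 2) := by
    have h9 := Real.logb_le_logb_of_le (b := 2) (by norm_num) hpos h7
    rw [Real.logb_mul hmax.ne' (by positivity), Real.logb_pow, Real.sqrt_eq_rpow,
      Real.logb_rpow_eq_mul_logb_of_pos (by norm_num)] at h9
    calc _ ≤ _ := h9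
      _ = _ := by ring
  have h10 := log_bound
  have h11 : (0 : ℝ) ≤ depth g := Nat.cast_nonneg _
  have h12 : (depth g : ℝ) * (Real.logb 2 (158 / 10) / 2) ≤ depth g * (500 / 251) :=
    mul_le_mul_of_nonneg_left (by linarith) h11
  have h13 : Real.logb 2 (wordLength g) ≤ Real.logb 2 (max M 1) + depth g * (500 / 251) := by
    linarith
  have h14 : (0.502 : ℝ) = 251 / 500 := by norm_num
  rw [h14]
  linarith

end Pool.Agent.Results.MP_7efe7b_al.DepthVersusLength
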